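import Pool.Agent.Q91.PT.Stm2

/-!
# Project PT (helper91): jobs FN1, FN2, FN3, loops instead of words
-/

set_option autoImplicit false

namespace Pool.Agent.Q231.PT.FN1

open Finset Pool.Agent.H976R2 Pool.Agent.H976R2.Lip Pool.Agent.H739K Pool.Agent.H924P Pool.Agent.Q91.PT
open scoped Classical

theorem pl_sing (hc : S_cnv) (n : ℕ) (hn : 2 ≤ n) (B : Set (ℕ × ℕ)) (a : ℤ) :
    pl n B {a} = NB (2 * n - 1) B a / (4 * (n : ℝ)) := by
  unfold pl NB
  rw [(hc n hn).1 B {a}]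
  congr 3
  ext w
  simp

theorem pl_univ (hc : S_cnv) (n : ℕ) (hn : 2 ≤ n) :
    pl n Set.univ Set.univ = ((KP (2 * n - 1)).card : ℝ) / (4 * (n : ℝ)) := by
  unfold pl
  rw [(hc n hn).1 Set.univ Set.univ]
  congr 3
  ext w
  simp

theorem pl_ratio (n : ℕ) (hn : 2 ≤ n) (x y : ℝ) :
    (x / (4 * (n : ℝ))) / (y / (4 * (n : ℝ))) = x / y := by
  have h : (4 * (n : ℝ)) ≠ 0 := by
    have : (0 : ℝ) < n := by exact_mod_cast (by omega : 0 < n)
    positivity
  field_simp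

theorem t (hc : S_cnv) (hf : S_few) (hr : S_rat) : S_fn1 := by
  obtain ⟨K, δ, hK, hδ, h⟩ := hr
  obtain ⟨_, _, _, _, _, _, hcard⟩ := hf
  refine ⟨K, δ, hK, hδ, fun n hn => ?_⟩
  have hn0 : (0 : ℝ) < n := by exact_mod_cast (by omega : 0 < n)
  have h4 : (0 : ℝ) < 4 * (n : ℝ) := by positivity
  have h3 : 3 ≤ 2 * n - 1 := by omega
  have hodd : (2 * n - 1) % 2 = 1 := by omega
  have hM : (0 : ℝ) < ((KP (2 * n - 1)).card : ℝ) := by exact_mod_cast (hcard _ h3 hodd).1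
  have hle : (n : ℝ) ≤ ((2 * n - 1 : ℕ) : ℝ) := by exact_mod_cast (by omega : n ≤ 2 * n - 1)
  rw [pl_univ hc n hn]
  refine ⟨by positivity, fun B a a' haa' hexp => ?_⟩
  rw [pl_sing hc n hn, ← mul_div_assoc, div_le_div_iff_of_pos_right h4] at hexp
  rw [pl_sing hc n hn, pl_sing hc n hn, pl_ratio n hn, pl_ratio n hn]
  have hexp' : Real.exp (-δ * ((2 * n - 1 : ℕ) : ℝ)) * ((KP (2 * n - 1)).card : ℝ) ≤
      NB (2 * n - 1) B a := by
    refine le_trans ?_ hexp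
    refine mul_le_mul_of_nonneg_right (Real.exp_le_exp.2 ?_) hM.le
    nlinarith
  have hN : 0 < NB (2 * n - 1) B a := lt_of_lt_of_le (by positivity) hexp
  have hNM : NB (2 * n - 1) B a ≤ ((KP (2 * n - 1)).card : ℝ) := by
    unfold NB
    exact_mod_cast card_le_card (filter_subset _ _)
  have hlog : 0 ≤ Real.log (((KP (2 * n - 1)).card : ℝ) / NB (2 * n - 1) B a) :=
    Real.log_nonneg ((one_le_div hN).2 hNM)
  refine (h _ h3 hodd B a a' haa' hexp').trans ?_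
  refine mul_le_mul_of_nonneg_left (Real.sqrt_le_sqrt ?_) hK.le
  exact div_le_div_of_nonneg_left (by linarith) hn0 hle

end Pool.Agent.Q231.PT.FN1
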