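import Pool.Agent.Q231.PT.FN1

/-!
# Project PT (helper91): job FN2, characteristic function and residue classes for loops
-/

set_option autoImplicit false

namespace Pool.Agent.Q231.PT.FN2

open Finset Pool.Agent.H976R2 Pool.Agent.H976R2.Lip Pool.Agent.H739K Pool.Agent.H924P Pool.Agent.Q91.PT
open scoped Classical

theorem t (hc : S_cnv) (hr : S_chp) : S_fn2 := by
  obtain ⟨K, δ, hK, hδ, h⟩ := hr
  refine ⟨K, δ, hK, hδ, fun n hn B => ?_⟩
  have hn0 : (0 : ℝ) < n := by exact_mod_cast (by omega : 0 < n)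
  have h4 : (0 : ℝ) < 4 * (n : ℝ) := by positivity
  have h3 : 3 ≤ 2 * n - 1 := by omega
  have hodd : (2 * n - 1) % 2 = 1 := by omega
  have hM : (0 : ℝ) ≤ ((KP (2 * n - 1)).card : ℝ) := Nat.cast_nonneg _
  have hle : (n : ℝ) ≤ ((2 * n - 1 : ℕ) : ℝ) := by exact_mod_cast (by omega : n ≤ 2 * n - 1)
  obtain ⟨h1, h2⟩ := h _ h3 hodd B
  rw [FN1.pl_univ hc n hn]
  constructor
  · intro t ht
    have e1 := (hc n hn).2.1 B (fun a : ℕ => Complex.exp (Complex.I * t * (a : ℂ)))
    rw [e1, ← mul_div_assoc]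
    refine div_le_div_of_nonneg_right ?_ h4.le
    have h5 := h1 t ht
    simp only [Int.cast_natCast] at h5
    refine h5.trans ?_
    refine mul_le_mul_of_nonneg_right (mul_le_mul_of_nonneg_left (Real.exp_le_exp.2 ?_) hK.le) hM
    have : 0 ≤ δ * t ^ 2 := by positivity
    nlinarith
  · intro q c hq
    have hq0 : (0 : ℝ) < q := by exact_mod_cast hq
    have e1 : pl n B {a | (q : ℤ) ∣ a - c} =
        (((KP (2 * n - 1)).filter (fun w => dims w ∈ B ∧ (q : ℤ) ∣ (ar w : ℤ) - c)).card : ℝ) /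
          (4 * (n : ℝ)) := by
      unfold pl
      rw [(hc n hn).1]
      congr 3
      ext w
      simp
    have e2 : pl n B Set.univ =
        (((KP (2 * n - 1)).filter (fun w => dims w ∈ B)).card : ℝ) / (4 * (n : ℝ)) := by
      unfold pl
      rw [(hc n hn).1]
      congr 3
      ext w
      simp
    rw [e1, e2, div_right_comm, ← sub_div, abs_div, abs_of_pos h4, ← mul_div_assoc]
    refine div_le_div_of_nonneg_right ?_ h4.le
    refine (h2 q c hq).trans ?_
    refine mul_le_mul_of_nonneg_right (mul_le_mul_of_nonneg_left (Real.exp_le_exp.2 ?_) hK.le) hM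
    refine div_le_div_of_nonneg_right ?_ (by positivity)
    nlinarith

end Pool.Agent.Q231.PT.FN2
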