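import Pool.Agent.Q231.PT.FN1

/-!
# Project PT (helper91): job FN3, differences for loops
-/

set_option autoImplicit false

namespace Pool.Agent.Q231.PT.FN3

open Finset Pool.Agent.H976R2 Pool.Agent.H976R2.Lip Pool.Agent.H739K Pool.Agent.H924P Pool.Agent.Q91.PT
open scoped Classical

theorem t (hc : S_cnv) (hr : S_dfp) : S_fn3 := by
  intro k
  obtain ⟨K, hK, h⟩ := hr k
  refine ⟨K, hK, fun n hn B S => ?_⟩
  have hn0 : (0 : ℝ) < n := by exact_mod_cast (by omega : 0 < n)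
  have h4 : (0 : ℝ) < 4 * (n : ℝ) := by positivity
  have h3 : 3 ≤ 2 * n - 1 := by omega
  have hodd : (2 * n - 1) % 2 = 1 := by omega
  have hM : (0 : ℝ) ≤ ((KP (2 * n - 1)).card : ℝ) := Nat.cast_nonneg _
  have hle : (n : ℝ) ≤ ((2 * n - 1 : ℕ) : ℝ) := by exact_mod_cast (by omega : n ≤ 2 * n - 1)
  have e1 : ∀ a : ℤ, |∑ j ∈ range (k + 1), (-1) ^ j * (k.choose j : ℝ) * pl n B {a + (j : ℤ)}| =
      |dk k (NB (2 * n - 1) B) a| / (4 * (n : ℝ)) := by
    intro a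
    unfold dk
    rw [← abs_of_pos h4, ← abs_div, Finset.sum_div]
    congr 1
    refine Finset.sum_congr rfl fun j _ => ?_
    rw [FN1.pl_sing hc n hn]
    ring
  rw [Finset.sum_congr rfl (fun a _ => e1 a), ← Finset.sum_div, FN1.pl_univ hc n hn]
  have e2 : K * (((KP (2 * n - 1)).card : ℝ) / (4 * (n : ℝ))) * (n : ℝ) ^ (-(k : ℝ) / 2) =
      (K * ((KP (2 * n - 1)).card : ℝ) * (n : ℝ) ^ (-(k : ℝ) / 2)) / (4 * (n : ℝ)) := by ring
  rw [e2]
  refine div_le_div_of_nonneg_right ?_ h4.le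
  refine (h _ h3 hodd B S).trans ?_
  refine mul_le_mul_of_nonneg_left ?_ (by positivity)
  refine Real.rpow_le_rpow_of_nonpos hn0 hle ?_
  have : (0 : ℝ) ≤ k := Nat.cast_nonneg k
  linarith

end Pool.Agent.Q231.PT.FN3
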